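import Pool.Agent.W971.MonSp

set_option autoImplicit false

namespace W54.MS

open Finset MvPolynomial Pool.Agent.W971.MonSp

lemma mul_prod_congr {B ι : Type*} [CommRing B] (e : B) (a b : ι → B) (s : Finset ι)
    (h : ∀ i ∈ s, e * a i = e * b i) : e * ∏ i ∈ s, a i = e * ∏ i ∈ s, b i := by
  classical
  induction s using Finset.induction_on with
  | empty => simp
  | insert i s hi ih =>
    rw [Finset.prod_insert hi, Finset.prod_insert hi, ← mul_assoc, h i (Finset.mem_insert_self i s),
      mul_assoc, mul_left_comm, ih (fun j hj => h j (Finset.mem_insert_of_mem hj)), mul_left_comm]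

lemma bool_prod {B ι : Type*} [CommRing B] (x : ι → B) (hx : ∀ i, x i * x i = x i)
    (s : Finset ι) : ∏ k ∈ Finset.range (s.card + 1), (∑ i ∈ s, x i - (k : B)) = 0 := by
  classical
  induction s using Finset.induction_on with
  | empty => simp
  | insert i s hi ih =>
    rw [Finset.card_insert_of_notMem hi, Finset.sum_insert hi]
    set y := ∑ i ∈ s, x i with hy
    set m := s.card + 1 with hm
    have h1 : x i * ∏ k ∈ Finset.range (m + 1), (x i + y - (k : B)) = 0 := by
      rw [mul_prod_congr (x i) (fun k : ℕ => (x i + y - (k : B))) (fun k : ℕ => (1 + y - (k : B)))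
        (Finset.range (m + 1)) (fun k _ => by linear_combination hx i)]
      rw [Finset.prod_range_succ']
      have : ∏ k ∈ Finset.range m, (1 + y - ((k + 1 : ℕ) : B)) = 0 := by
        rw [← ih]
        refine Finset.prod_congr rfl fun k _ => ?_
        push_cast
        ring
      rw [this]
      ring
    have h2 : (1 - x i) * ∏ k ∈ Finset.range (m + 1), (x i + y - (k : B)) = 0 := by
      rw [mul_prod_congr (1 - x i) (fun k : ℕ => (x i + y - (k : B))) (fun k : ℕ => (y - (k : B)))
        (Finset.range (m + 1)) (fun k _ => by linear_combination - hx i)]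
      rw [Finset.prod_range_succ, ih]
      ring
    linear_combination h1 + h2

variable {n : ℕ}

lemma one_mem (n : ℕ) : (1 : MvPolynomial (Fin n) ℚ) ∈
    Ideal.span ((Pn n) ∪ Set.range fun v : Fin n => (X v ^ 2 - X v : MvPolynomial (Fin n) ℚ)) := by
  set J := Ideal.span ((Pn n) ∪
    Set.range fun v : Fin n => (X v ^ 2 - X v : MvPolynomial (Fin n) ℚ)) with hJ
  rw [← Ideal.Quotient.eq_zero_iff_mem]
  set π := Ideal.Quotient.mk J with hπ
  have hx : ∀ i : Fin n, π (X i) * π (X i) = π (X i) := by
    intro i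
    have : (X i ^ 2 - X i : MvPolynomial (Fin n) ℚ) ∈ J :=
      Ideal.subset_span (Or.inr ⟨i, rfl⟩)
    have h := Ideal.Quotient.eq_zero_iff_mem.mpr this
    change π (X i ^ 2 - X i) = 0 at h
    rw [map_sub, map_pow] at h
    linear_combination h
  have hp : ∑ i, π (X i) = -1 := by
    have : ((∑ i, X i) + 1 : MvPolynomial (Fin n) ℚ) ∈ J :=
      Ideal.subset_span (Or.inl rfl)
    have h := Ideal.Quotient.eq_zero_iff_mem.mpr this
    change π ((∑ i, X i) + 1) = 0 at h
    rw [map_add, map_sum, map_one] at h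
    linear_combination h
  have h1 := bool_prod (fun i : Fin n => π (X i)) hx Finset.univ
  rw [hp, Finset.card_univ, Fintype.card_fin] at h1
  have h2 : ∏ k ∈ Finset.range (n + 1), ((-1 : MvPolynomial (Fin n) ℚ ⧸ J) - (k : ℕ)) =
      π (C (∏ k ∈ Finset.range (n + 1), ((-1 : ℚ) - k))) := by
    rw [map_prod, map_prod]
    refine Finset.prod_congr rfl fun k _ => ?_
    simp
  have h3 : (∏ k ∈ Finset.range (n + 1), ((-1 : ℚ) - k)) ≠ 0 := by
    refine Finset.prod_ne_zero_iff.mpr fun k _ => ?_
    have : (0 : ℚ) ≤ k := Nat.cast_nonneg k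
    linarith
  rw [h2] at h1
  have h4 : (1 : MvPolynomial (Fin n) ℚ) =
      C ((∏ k ∈ Finset.range (n + 1), ((-1 : ℚ) - k))⁻¹) *
        C (∏ k ∈ Finset.range (n + 1), ((-1 : ℚ) - k)) := by
    rw [← C_mul, inv_mul_cancel₀ h3, C_1]
  rw [h4, map_mul, h1, mul_zero]

lemma PC_mono {V F : Type} [Field F] {P : Set (MvPolynomial V F)} {k k' : ℕ} (hkk : k ≤ k')
    {q : MvPolynomial V F} (h : PC P k q) : PC P k' q := by
  induction h with
  | ax p hp hd => exact PC.ax p hp (hd.trans hkk)
  | bool v hd => exact PC.bool v (hd.trans hkk)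
  | lin α β p q _ _ hd ihp ihq => exact PC.lin α β p q ihp ihq (hd.trans hkk)
  | mul v p _ hd ih => exact PC.mul v p ih (hd.trans hkk)

/-- derivable in some degree -/
def DD {V F : Type} [Field F] (P : Set (MvPolynomial V F)) (q : MvPolynomial V F) : Prop :=
  ∃ k, PC P k q

lemma DD_lin {V F : Type} [Field F] {P : Set (MvPolynomial V F)} (α β : F)
    {p q : MvPolynomial V F} (hp : DD P p) (hq : DD P q) : DD P (C α * p + C β * q) := by
  obtain ⟨k, hk⟩ := hp
  obtain ⟨l, hl⟩ := hq
  exact ⟨max (max k l) (C α * p + C β * q).totalDegree,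
    PC.lin α β p q (PC_mono ((le_max_left _ _).trans (le_max_left _ _)) hk)
      (PC_mono ((le_max_right _ _).trans (le_max_left _ _)) hl) (le_max_right _ _)⟩

lemma DD_X {V F : Type} [Field F] {P : Set (MvPolynomial V F)} (v : V)
    {p : MvPolynomial V F} (hp : DD P p) : DD P (X v * p) := by
  obtain ⟨k, hk⟩ := hp
  exact ⟨max k (X v * p).totalDegree, PC.mul v p (PC_mono (le_max_left _ _) hk) (le_max_right _ _)⟩

lemma DD_mul {V F : Type} [Field F] {P : Set (MvPolynomial V F)} (r : MvPolynomial V F) :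
    ∀ q : MvPolynomial V F, DD P q → DD P (r * q) := by
  induction r using MvPolynomial.induction_on with
  | C a =>
    intro q hq
    have := DD_lin a 0 hq hq
    simpa using this
  | add r s hr hs =>
    intro q hq
    have := DD_lin 1 1 (hr q hq) (hs q hq)
    simpa [add_mul] using this
  | mul_X r v hr =>
    intro q hq
    have := hr _ (DD_X v hq)
    rwa [← mul_assoc] at this

lemma DD_span {V F : Type} [Field F] {P : Set (MvPolynomial V F)} (hP : P.Nonempty)
    {q : MvPolynomial V F}
    (hq : q ∈ Ideal.span (P ∪ Set.range fun v : V => (X v ^ 2 - X v : MvPolynomial V F))) :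
    DD P q := by
  induction hq using Submodule.span_induction with
  | mem x hx =>
    rcases hx with hx | ⟨v, rfl⟩
    · exact ⟨_, PC.ax x hx le_rfl⟩
    · exact ⟨_, PC.bool v le_rfl⟩
  | zero =>
    obtain ⟨p, hp⟩ := hP
    have h : DD P p := ⟨_, PC.ax p hp le_rfl⟩
    have := DD_lin 0 0 h h
    simpa using this
  | add x y _ _ hx hy =>
    have := DD_lin 1 1 hx hy
    simpa using this
  | smul a x _ hx => exact DD_mul a x hx

lemma totalDegree_Pn (hn : 1 ≤ n) :
    ((∑ i, X i) + 1 : MvPolynomial (Fin n) ℚ).totalDegree = 1 := by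
  apply le_antisymm
  · refine (totalDegree_add _ _).trans (max_le ?_ ?_)
    · refine (totalDegree_finsetSum _ _).trans ?_
      refine Finset.sup_le fun i _ => ?_
      rw [totalDegree_X]
    · simp
  · have hc : coeff (Finsupp.single (⟨0, hn⟩ : Fin n) 1)
        ((∑ i, X i) + 1 : MvPolynomial (Fin n) ℚ) ≠ 0 := by
      rw [coeff_add, coeff_sum]
      have h1 : ∑ i : Fin n, coeff (Finsupp.single (⟨0, hn⟩ : Fin n) 1)
          (X i : MvPolynomial (Fin n) ℚ) = 1 := by
        rw [Finset.sum_eq_single (⟨0, hn⟩ : Fin n)]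
        · simp
        · intro j _ hj
          rw [coeff_X, if_neg]
          intro hh
          apply hj
          exact Finsupp.single_left_injective one_ne_zero hh
        · simp
      rw [h1, coeff_one, if_neg]
      · norm_num
      · intro hh
        have := DFunLike.congr_fun hh (⟨0, hn⟩ : Fin n)
        simp at this
    have := MvPolynomial.le_totalDegree (mem_support_iff.mpr hc)
    simpa using this

lemma one_mem' (n : ℕ) (K : Ideal (MvPolynomial (Fin n) ℚ)) :
    (1 : MvPolynomial (Fin n) ℚ) ∈ K ⊔ BoolI (Fin n) ℚ ⊔ Ideal.span {(∑ i, X i) + 1} := by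
  have h1 := one_mem n
  rw [Ideal.span_union] at h1
  refine (sup_le ?_ ?_ : _ ≤ K ⊔ BoolI (Fin n) ℚ ⊔ Ideal.span {(∑ i, X i) + 1}) h1
  · exact le_sup_right
  · exact le_trans le_sup_right le_sup_left

/-- the configurations -/
noncomputable def cf (n : ℕ) (i : ℕ) : Finset (MvPolynomial (Fin n) ℚ) := if i = 0 then ∅ else {1}

lemma cf_zero (n : ℕ) : cf n 0 = ∅ := if_pos rfl

lemma cf_succ (n i : ℕ) : cf n (i + 1) = {1} := if_neg (Nat.succ_ne_zero i)

/-- the semantic refutation -/
noncomputable def sr (n : ℕ) : SemRef (Pn n) where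
  len := 1
  conf := cf n
  start := cf_zero n
  fin := by rw [cf_succ]; exact Finset.mem_singleton_self _
  step := by
    intro i _
    refine ⟨(∑ i, X i) + 1, Set.mem_singleton _, ?_⟩
    intro q hq
    rw [cf_succ, Finset.mem_singleton] at hq
    rw [hq]
    exact one_mem' n _

lemma sr_space (n : ℕ) : (sr n).space = 1 := by
  have h0 : MSp (∅ : Finset (MvPolynomial (Fin n) ℚ)) = 0 := by
    unfold MSp; simp
  have h1 : MSp ({1} : Finset (MvPolynomial (Fin n) ℚ)) = 1 := by
    unfold MSp
    have h3 : ((1 : MvPolynomial (Fin n) ℚ)).support.card = 1 := by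
      have : (1 : MvPolynomial (Fin n) ℚ) = monomial 0 1 := rfl
      rw [this, support_monomial]
      simp
    rw [← h3]
    congr 1
    ext m
    simp
  have h2 : (sr n).space = (Finset.range (1 + 1)).sup fun i => MSp (cf n i) := rfl
  rw [h2, Finset.range_add_one, Finset.sup_insert, Finset.range_one, Finset.sup_singleton,
    show cf n 1 = {1} from cf_succ n 0, cf_zero, h0, h1]
  rfl

theorem ex : S_ex := by
  intro n hn
  refine ⟨?_, ?_, ?_, sr n, sr_space n⟩
  · intro a ha
    refine ⟨(∑ i, X i) + 1, Set.mem_singleton _, ?_⟩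
    have h1 : 0 ≤ ∑ i, a i := Finset.sum_nonneg fun i _ => by
      rcases ha i with h | h <;> rw [h] <;> norm_num
    have h2 : eval a ((∑ i, X i) + 1 : MvPolynomial (Fin n) ℚ) = ∑ i, a i + 1 := by
      simp
    rw [h2]
    linarith
  · constructor
    · exact ⟨(∑ i, X i) + 1, Set.mem_singleton _, (totalDegree_Pn hn).symm⟩
    · rintro e ⟨p, hp, rfl⟩
      have hp' : p = (∑ i, X i) + 1 := hp
      rw [hp', totalDegree_Pn hn]
  · exact DD_span ⟨(∑ i, X i) + 1, Set.mem_singleton _⟩ (one_mem n)

end W54.MS
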