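import Pool.Agent.W54.MS.Inj

set_option autoImplicit false

namespace W54.MS

open Finset MvPolynomial Pool.Agent.W971.MonSp

variable {n : ℕ}

/-- function with Moebius coefficients `c` -/
def fn (c : Finset (Fin n) → ℚ) (S : Finset (Fin n)) : ℚ := ∑ T ∈ S.powerset, c T

/-- indicator of `S` -/
def ind (S : Finset (Fin n)) : Fin n → ℚ := fun i => if i ∈ S then 1 else 0

lemma fn_zero {d : Finset (Fin n) → ℚ} (h : ∀ S, fn d S = 0) : ∀ T, d T = 0 := by
  intro T
  induction T using Finset.strongInduction with
  | H T ih =>
    have h1 := h T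
    unfold fn at h1
    rw [← Finset.sum_erase_add _ _ (Finset.mem_powerset_self T)] at h1
    have h2 : ∑ x ∈ T.powerset.erase T, d x = 0 := by
      refine Finset.sum_eq_zero fun S hS => ?_
      rw [mem_erase, mem_powerset] at hS
      exact ih S (Finset.ssubset_iff_subset_ne.mpr ⟨hS.2, hS.1⟩)
    rw [h2, zero_add] at h1
    exact h1

lemma fn_inj {a b : Finset (Fin n) → ℚ} (h : ∀ S, fn a S = fn b S) : ∀ T, a T = b T := by
  intro T
  have : ∀ S, fn (fun T => a T - b T) S = 0 := by
    intro S
    unfold fn
    rw [Finset.sum_sub_distrib]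
    have := h S
    unfold fn at this
    rw [this, sub_self]
  have := fn_zero this T
  linarith

/-- multiplication by `|S| + 1` on the coefficients -/
def up (c : Finset (Fin n) → ℚ) (T : Finset (Fin n)) : ℚ :=
  (T.card + 1) * c T + ∑ i ∈ T, c (T.erase i)

lemma fn_up (c : Finset (Fin n) → ℚ) (S : Finset (Fin n)) :
    ((S.card : ℚ) + 1) * fn c S = fn (up c) S := by
  unfold fn up
  rw [Finset.sum_add_distrib]
  have h1 : ∑ T ∈ S.powerset, ∑ i ∈ T, c (T.erase i) =
      ∑ T ∈ S.powerset, ∑ i ∈ S \ T, c T := by
    rw [Finset.sum_sigma', Finset.sum_sigma']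
    refine Finset.sum_bij' (fun p _ => ⟨p.1.erase p.2, p.2⟩) (fun p _ => ⟨insert p.2 p.1, p.2⟩)
      ?_ ?_ ?_ ?_ ?_
    · rintro ⟨T, i⟩ h
      simp only [mem_sigma, mem_powerset] at h
      simp only [mem_sigma, mem_powerset, mem_sdiff, mem_erase, ne_eq, not_true_eq_false,
        false_and, not_false_eq_true, and_true]
      exact ⟨(Finset.erase_subset _ _).trans h.1, h.1 h.2⟩
    · rintro ⟨T, i⟩ h
      simp only [mem_sigma, mem_powerset, mem_sdiff] at h
      simp only [mem_sigma, mem_powerset, mem_insert, true_or, and_true]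
      exact Finset.insert_subset h.2.1 h.1
    · rintro ⟨T, i⟩ h
      simp only [mem_sigma, mem_powerset] at h
      simp [Finset.insert_erase h.2]
    · rintro ⟨T, i⟩ h
      simp only [mem_sigma, mem_powerset, mem_sdiff] at h
      simp [Finset.erase_insert h.2.2]
    · rintro ⟨T, i⟩ h
      rfl
  rw [h1, ← Finset.sum_add_distrib, Finset.mul_sum]
  refine Finset.sum_congr rfl fun T hT => ?_
  rw [mem_powerset] at hT
  rw [Finset.sum_const, nsmul_eq_mul, Finset.card_sdiff_of_subset hT,
    Nat.cast_sub (Finset.card_le_card hT)]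
  ring

/-- multiplication by `x_v` on the coefficients -/
def mulv (v : Fin n) (c : Finset (Fin n) → ℚ) (T : Finset (Fin n)) : ℚ :=
  if v ∈ T then c T + c (T.erase v) else 0

lemma fn_mulv (v : Fin n) (c : Finset (Fin n) → ℚ) (S : Finset (Fin n)) :
    (if v ∈ S then (1 : ℚ) else 0) * fn c S = fn (mulv v c) S := by
  unfold fn mulv
  by_cases hv : v ∈ S
  · rw [if_pos hv, one_mul]
    have h1 : S.powerset = (S.erase v).powerset ∪ ((S.erase v).powerset).image (insert v) := by
      conv_lhs => rw [← Finset.insert_erase hv]
      rw [Finset.powerset_insert]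
    have hdis : Disjoint (S.erase v).powerset (((S.erase v).powerset).image (insert v)) := by
      rw [Finset.disjoint_left]
      intro T h1 h2
      rw [mem_powerset] at h1
      obtain ⟨T', -, rfl⟩ := Finset.mem_image.mp h2
      have := h1 (Finset.mem_insert_self v T')
      simp at this
    have hinj : Set.InjOn (insert v) ((S.erase v).powerset : Set (Finset (Fin n))) := by
      intro A hA B hB hAB
      simp only [coe_powerset, Set.mem_preimage, Set.mem_powerset_iff, coe_subset] at hA hB
      have hA' : v ∉ A := fun h => by simpa using hA h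
      have hB' : v ∉ B := fun h => by simpa using hB h
      rw [← Finset.erase_insert hA', ← Finset.erase_insert hB']
      exact congrArg (fun X => X.erase v) hAB
    rw [h1, Finset.sum_union hdis, Finset.sum_union hdis, Finset.sum_image hinj,
      Finset.sum_image hinj]
    have h2 : ∑ T ∈ (S.erase v).powerset, (if v ∈ T then c T + c (T.erase v) else 0) = 0 := by
      refine Finset.sum_eq_zero fun T hT => ?_
      rw [mem_powerset] at hT
      rw [if_neg]
      intro h
      simpa using hT h
    rw [h2, zero_add, ← Finset.sum_add_distrib]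
    refine Finset.sum_congr rfl fun T hT => ?_
    rw [mem_powerset] at hT
    have hT' : v ∉ T := fun h => by simpa using hT h
    rw [if_pos (Finset.mem_insert_self v T), Finset.erase_insert hT']
    ring
  · rw [if_neg hv, zero_mul]
    symm
    refine Finset.sum_eq_zero fun T hT => ?_
    rw [mem_powerset] at hT
    rw [if_neg]
    exact fun h => hv (hT h)

/-- value of a polynomial at the indicator of `S` -/
noncomputable def ev (q : MvPolynomial (Fin n) ℚ) (S : Finset (Fin n)) : ℚ := eval (ind S) q

lemma ev_poly (q : MvPolynomial (Fin n) ℚ) (k : ℕ) (hk : q.totalDegree < k) :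
    ∃ a : Finset (Fin n) → ℚ, (∀ T, k ≤ T.card → a T = 0) ∧ ∀ S, ev q S = fn a S := by
  classical
  refine ⟨fun T => ∑ m ∈ q.support, if m.support = T then coeff m q else 0, ?_, ?_⟩
  · intro T hT
    refine Finset.sum_eq_zero fun m hm => ?_
    rw [if_neg]
    intro h
    have h1 : m.support.card ≤ m.sum fun _ e => e := by
      rw [Finsupp.sum, Finset.card_eq_sum_ones]
      refine Finset.sum_le_sum fun i hi => ?_
      rw [Finsupp.mem_support_iff] at hi
      omega
    have h2 := MvPolynomial.le_totalDegree hm
    rw [h] at h1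
    omega
  · intro S
    unfold ev fn
    rw [MvPolynomial.eval_eq, Finset.sum_comm]
    refine Finset.sum_congr rfl fun m hm => ?_
    rw [Finset.sum_ite_eq]
    by_cases hS : m.support ⊆ S
    · rw [if_pos (Finset.mem_powerset.mpr hS)]
      have : ∏ i ∈ m.support, ind S i ^ m i = 1 := by
        refine Finset.prod_eq_one fun i hi => ?_
        unfold ind
        rw [if_pos (hS hi), one_pow]
      rw [this, mul_one]
    · rw [if_neg (fun h => hS (Finset.mem_powerset.mp h))]
      obtain ⟨i, hi, hiS⟩ := Finset.not_subset.mp hS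
      have : ∏ i ∈ m.support, ind S i ^ m i = 0 := by
        refine Finset.prod_eq_zero hi ?_
        unfold ind
        rw [if_neg hiS, zero_pow]
        exact Finsupp.mem_support_iff.mp hi
      rw [this, mul_zero]

lemma ev_X_mul (v : Fin n) (q : MvPolynomial (Fin n) ℚ) (S : Finset (Fin n)) :
    ev (X v * q) S = (if v ∈ S then (1 : ℚ) else 0) * ev q S := by
  unfold ev ind
  simp

/-- the invariant -/
def Inv (k : ℕ) (q : MvPolynomial (Fin n) ℚ) : Prop :=
  ∃ c : Finset (Fin n) → ℚ, (∀ T, k ≤ T.card → c T = 0) ∧
    ∀ S, ev q S = ((S.card : ℚ) + 1) * fn c S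

theorem inv_of_PC (hinj : S_inj) (hn : 1 ≤ n) {k : ℕ} (hk : 2 * k ≤ n)
    {q : MvPolynomial (Fin n) ℚ} (h : PC (Pn n) k q) : Inv k q := by
  induction h with
  | ax p hp hd =>
    have hp' : p = (∑ i, X i) + 1 := hp
    subst hp'
    have hk1 : 1 ≤ k := by
      refine le_trans ?_ hd
      have hc : coeff (Finsupp.single (⟨0, hn⟩ : Fin n) 1)
          ((∑ i, X i) + 1 : MvPolynomial (Fin n) ℚ) ≠ 0 := by
        rw [coeff_add, coeff_sum]
        have h1 : ∑ i : Fin n, coeff (Finsupp.single (⟨0, hn⟩ : Fin n) 1)
            (X i : MvPolynomial (Fin n) ℚ) = 1 := by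
          rw [Finset.sum_eq_single (⟨0, hn⟩ : Fin n)]
          · simp
          · intro j _ hj
            rw [coeff_X, if_neg]
            intro hh
            apply hj
            exact Finsupp.single_left_injective one_ne_zero hh
          · simp
        rw [h1, coeff_one, if_neg]
        · norm_num
        · intro hh
          have := DFunLike.congr_fun hh (⟨0, hn⟩ : Fin n)
          simp at this
      have := MvPolynomial.le_totalDegree (mem_support_iff.mpr hc)
      simpa using this
    refine ⟨fun T => if T = ∅ then 1 else 0, ?_, ?_⟩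
    · intro T hT
      show (if T = ∅ then (1 : ℚ) else 0) = 0
      rw [if_neg]
      rintro rfl
      simp at hT
      omega
    · intro S
      have h1 : fn (fun T : Finset (Fin n) => if T = ∅ then (1 : ℚ) else 0) S = 1 := by
        unfold fn
        rw [Finset.sum_ite_eq']
        simp
      rw [h1, mul_one]
      unfold ev ind
      simp
  | bool v hd =>
    refine ⟨fun _ => 0, fun _ _ => rfl, fun S => ?_⟩
    unfold ev ind fn
    by_cases hv : v ∈ S <;> simp [hv]
  | lin α β p q hp hq hd ihp ihq =>
    obtain ⟨c, hc, hc'⟩ := ihp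
    obtain ⟨d, hd, hd'⟩ := ihq
    refine ⟨fun T => α * c T + β * d T, fun T hT => by
      show α * c T + β * d T = 0
      rw [hc T hT, hd T hT]; ring, fun S => ?_⟩
    have h1 : ev (C α * p + C β * q) S = α * ev p S + β * ev q S := by
      unfold ev; simp
    rw [h1, hc', hd']
    unfold fn
    rw [Finset.sum_add_distrib, ← Finset.mul_sum, ← Finset.mul_sum]
    ring
  | mul v p hp hd ih =>
    by_cases hp0 : p = 0
    · subst hp0
      refine ⟨fun _ => 0, fun _ _ => rfl, fun S => ?_⟩
      unfold ev fn; simp
    · obtain ⟨c, hc, hc'⟩ := ih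
      have hdeg : p.totalDegree < k := by
        rw [MvPolynomial.totalDegree_mul_of_isDomain (X_ne_zero v) hp0, totalDegree_X] at hd
        omega
      obtain ⟨a, ha, ha'⟩ := ev_poly p k hdeg
      have hau : ∀ T, a T = up c T := by
        refine fn_inj fun S => ?_
        rw [← fn_up, ← hc', ha']
      have hkey : ∀ T, T.card = k - 1 → c T = 0 := by
        have h1 := hinj n (k - 1) (by omega) (fun T => if T.card = k - 1 then c T else 0)
          (fun T hT => if_neg hT) ?_
        · intro T hT
          have := h1 T
          simpa [hT] using this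
        · intro T hT
          have hTk : T.card = k := by omega
          have h2 := hau T
          rw [ha T hTk.ge] at h2
          unfold up at h2
          rw [hc T hTk.ge, mul_zero, zero_add] at h2
          rw [h2]
          refine Finset.sum_congr rfl fun i hi => ?_
          rw [Finset.card_erase_of_mem hi, if_pos (by omega)]
      have hkey' : ∀ T, k - 1 ≤ T.card → c T = 0 := by
        intro T hT
        rcases Nat.lt_or_ge T.card k with h | h
        · exact hkey T (by omega)
        · exact hc T h
      refine ⟨mulv v c, ?_, ?_⟩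
      · intro T hT
        unfold mulv
        split_ifs with hv
        · rw [hc T hT, hkey' _ (by rw [Finset.card_erase_of_mem hv]; omega), add_zero]
        · rfl
      · intro S
        rw [ev_X_mul, hc', ← fn_mulv]
        ring

theorem lb_of_inj (hinj : S_inj) : S_lb := by
  intro n k hn hPC
  by_contra hcon
  have hk : 2 * k ≤ n := by omega
  obtain ⟨c, hc, hc'⟩ := inv_of_PC hinj hn hk hPC
  have h1 : ∀ S : Finset (Fin n), fn (up c) S =
      fn (fun T : Finset (Fin n) => if T = ∅ then (1 : ℚ) else 0) S := by
    intro S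
    rw [← fn_up, ← hc']
    unfold ev fn
    rw [Finset.sum_ite_eq']
    simp
  have h2 := fn_inj h1
  have h3 : ∀ m : ℕ, ∀ T : Finset (Fin n), T.card = m → c T = (-1) ^ m / (m + 1) := by
    intro m
    induction m with
    | zero =>
      intro T hT
      rw [Finset.card_eq_zero] at hT
      subst hT
      have := h2 ∅
      unfold up at this
      simpa using this
    | succ m ih =>
      intro T hT
      have h4 := h2 T
      have hT0 : T ≠ ∅ := by
        rintro rfl
        simp at hT
      rw [if_neg hT0] at h4
      unfold up at h4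
      have h5 : ∑ i ∈ T, c (T.erase i) = (m + 1) * ((-1) ^ m / (m + 1)) := by
        rw [Finset.sum_congr rfl (fun i hi => ih (T.erase i)
          (by rw [Finset.card_erase_of_mem hi, hT]; rfl)), Finset.sum_const, hT, nsmul_eq_mul]
        push_cast
        ring
      rw [h5, hT] at h4
      push_cast at h4 ⊢
      have h6 : (m : ℚ) + 1 ≠ 0 := by positivity
      have h7 : (m : ℚ) + 1 + 1 ≠ 0 := by positivity
      rw [mul_div_cancel₀ _ h6] at h4
      rw [eq_div_iff h7]
      rw [pow_succ]
      linarith
  have h4 := h3 n Finset.univ (by simp)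
  rw [hc Finset.univ (by simp; omega)] at h4
  have h5 : ((-1 : ℚ)) ^ n / (n + 1) ≠ 0 := by
    apply div_ne_zero
    · exact pow_ne_zero _ (by norm_num)
    · positivity
  exact h5 h4.symm

theorem lb : S_lb := lb_of_inj inj

end W54.MS
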