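import Pool.Agent.W971.MonSp

set_option autoImplicit false

namespace W54.MS

open Finset

variable {n : ℕ}

lemma adj (f g : Finset (Fin n) → ℚ) :
    ∑ S : Finset (Fin n), ∑ i ∈ S, f S * g (S.erase i) =
      ∑ S : Finset (Fin n), ∑ i ∈ Sᶜ, f (insert i S) * g S := by
  rw [Finset.sum_sigma', Finset.sum_sigma']
  refine Finset.sum_bij' (fun p _ => ⟨p.1.erase p.2, p.2⟩) (fun p _ => ⟨insert p.2 p.1, p.2⟩)
    ?_ ?_ ?_ ?_ ?_
  · rintro ⟨S, i⟩ h
    simp
  · rintro ⟨S, i⟩ h
    simp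
  · rintro ⟨S, i⟩ h
    simp only [mem_sigma, mem_univ, true_and] at h
    simp [Finset.insert_erase h]
  · rintro ⟨S, i⟩ h
    simp only [mem_sigma, mem_univ, true_and, mem_compl] at h
    simp [Finset.erase_insert h]
  · rintro ⟨S, i⟩ h
    simp only [mem_sigma, mem_univ, true_and] at h
    simp [Finset.insert_erase h]

/-- the commutator of the two operators -/
lemma comm (c : Finset (Fin n) → ℚ) (S : Finset (Fin n)) :
    ∑ i ∈ Sᶜ, ∑ j ∈ insert i S, c ((insert i S).erase j) =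
      ∑ j ∈ S, ∑ i ∈ (S.erase j)ᶜ, c (insert i (S.erase j)) + ((n : ℚ) - 2 * S.card) * c S := by
  have h1 : ∑ i ∈ Sᶜ, ∑ j ∈ insert i S, c ((insert i S).erase j) =
      ∑ i ∈ Sᶜ, (c S + ∑ j ∈ S, c (insert i (S.erase j))) := by
    refine Finset.sum_congr rfl fun i hi => ?_
    rw [mem_compl] at hi
    rw [Finset.sum_insert hi, Finset.erase_insert hi]
    congr 1
    refine Finset.sum_congr rfl fun j hj => ?_
    have hij : i ≠ j := fun h => hi (h ▸ hj)
    rw [Finset.erase_insert_of_ne hij]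
  have h2 : ∑ j ∈ S, ∑ i ∈ (S.erase j)ᶜ, c (insert i (S.erase j)) =
      ∑ j ∈ S, (c S + ∑ i ∈ Sᶜ, c (insert i (S.erase j))) := by
    refine Finset.sum_congr rfl fun j hj => ?_
    have hj' : j ∉ Sᶜ := by simpa using hj
    rw [Finset.compl_erase, Finset.sum_insert hj', Finset.insert_erase hj]
  rw [h1, h2, Finset.sum_add_distrib, Finset.sum_add_distrib, Finset.sum_comm]
  simp only [Finset.sum_const, nsmul_eq_mul, Finset.card_compl, Fintype.card_fin]
  have h3 : S.card ≤ n := by simpa using Finset.card_le_univ S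
  rw [Nat.cast_sub h3]
  ring

theorem inj : Pool.Agent.W971.MonSp.S_inj := by
  intro n j hj c hc h
  set U : Finset (Fin n) → ℚ := fun T => ∑ i ∈ T, c (T.erase i) with hU
  set D : Finset (Fin n) → ℚ := fun S => ∑ i ∈ Sᶜ, c (insert i S) with hD
  have hU0 : ∀ T, U T = 0 := by
    intro T
    by_cases hT : T.card = j + 1
    · exact h T hT
    · refine Finset.sum_eq_zero fun i hi => hc _ ?_
      rw [Finset.card_erase_of_mem hi]
      have : 0 < T.card := Finset.card_pos.mpr ⟨i, hi⟩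
      omega
  have e1 : ∀ S, ∑ i ∈ Sᶜ, U (insert i S) = ∑ j ∈ S, D (S.erase j) +
      ((n : ℚ) - 2 * S.card) * c S := fun S => comm c S
  have e2 : ∑ S, c S * (∑ j ∈ S, D (S.erase j)) = ∑ S, D S * D S := by
    have := adj c D
    simp only [Finset.mul_sum]
    rw [this]
    refine Finset.sum_congr rfl fun S _ => ?_
    rw [← Finset.sum_mul]
  have e3 : ∑ S, c S * (∑ i ∈ Sᶜ, U (insert i S)) = 0 := by
    simp [hU0]
  have e4 : ∑ S : Finset (Fin n), D S * D S + ∑ S, ((n : ℚ) - 2 * S.card) * (c S * c S) = 0 := by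
    rw [← e3, ← e2, ← Finset.sum_add_distrib]
    refine Finset.sum_congr rfl fun S _ => ?_
    rw [e1]
    ring
  have e5 : ∑ S, ((n : ℚ) - 2 * S.card) * (c S * c S) = ((n : ℚ) - 2 * j) * ∑ S, c S * c S := by
    rw [Finset.mul_sum]
    refine Finset.sum_congr rfl fun S _ => ?_
    by_cases hS : S.card = j
    · rw [hS]
    · rw [hc S hS]; ring
  have e6 : 0 ≤ ∑ S : Finset (Fin n), D S * D S :=
    Finset.sum_nonneg fun S _ => mul_self_nonneg _
  have e7 : 0 ≤ ∑ S : Finset (Fin n), c S * c S :=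
    Finset.sum_nonneg fun S _ => mul_self_nonneg _
  have e8 : (1 : ℚ) ≤ (n : ℚ) - 2 * j := by
    have : ((2 * j + 1 : ℕ) : ℚ) ≤ (n : ℚ) := by exact_mod_cast hj
    push_cast at this
    linarith
  have e9 : ∑ S : Finset (Fin n), c S * c S = 0 := by
    rw [e5] at e4
    nlinarith
  intro T
  have := (Finset.sum_eq_zero_iff_of_nonneg (fun S _ => mul_self_nonneg (c S))).mp e9 T (mem_univ T)
  exact mul_self_eq_zero.mp this

end W54.MS
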